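import Pool.Agent.helper18.HG.Spec

/-!
# Row RKB of project HG: basic facts on the numbers `r_k(L)`
-/

set_option autoImplicit false

namespace Pool.Agent.helper18.HG

open Finset

lemma RKB_empty (k : ℕ) (hk : 1 ≤ k) : APFree k ∅ := fun _ _ _ => ⟨0, hk, by simp⟩

lemma RKB_sub (k : ℕ) (A B : Finset ℕ) (h : A ⊆ B) (hB : APFree k B) : APFree k A := by
  intro a q hq
  obtain ⟨j, hj, hn⟩ := hB a q hq
  exact ⟨j, hj, fun h' => hn (h h')⟩

lemma RKB_bdd (k L : ℕ) : BddAbove {n | ∃ A : Finset ℕ, A ⊆ range L ∧ APFree k A ∧ A.card = n} := by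
  refine ⟨L, ?_⟩
  rintro n ⟨A, hA, _, rfl⟩
  have := card_le_card hA
  rwa [card_range] at this

lemma RKB_att (k L : ℕ) (hk : 1 ≤ k) :
    ∃ A : Finset ℕ, A ⊆ range L ∧ APFree k A ∧ A.card = rk k L := by
  have hne : {n | ∃ A : Finset ℕ, A ⊆ range L ∧ APFree k A ∧ A.card = n}.Nonempty :=
    ⟨0, ∅, empty_subset _, RKB_empty k hk, card_empty⟩
  exact Nat.sSup_mem hne (RKB_bdd k L)

lemma RKB_le (k L : ℕ) (A : Finset ℕ) (hA : A ⊆ range L) (hf : APFree k A) : A.card ≤ rk k L :=
  le_csSup (RKB_bdd k L) ⟨A, hA, hf, rfl⟩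

theorem RKB : RKB_stmt := by
  intro k hk
  have hk1 : 1 ≤ k := by omega
  have hmono : ∀ L, rk k L ≤ rk k (L + 1) ∧ rk k (L + 1) ≤ rk k L + 1 := by
    intro L
    constructor
    · obtain ⟨A, hA, hf, hc⟩ := RKB_att k L hk1
      rw [← hc]
      exact RKB_le k (L + 1) A (hA.trans (range_subset_range.mpr (Nat.le_succ L))) hf
    · obtain ⟨A, hA, hf, hc⟩ := RKB_att k (L + 1) hk1
      have h1 : A.erase L ⊆ range L := by
        intro x hx
        obtain ⟨hx1, hx2⟩ := mem_erase.mp hx
        have := mem_range.mp (hA hx2)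
        exact mem_range.mpr (by omega)
      have h2 := RKB_le k L (A.erase L) h1 (RKB_sub k _ _ (erase_subset _ _) hf)
      have h3 : A.card - 1 ≤ (A.erase L).card := pred_card_le_card_erase
      omega
  have hsmall : ∀ L, L < k → rk k L = L := by
    intro L hL
    refine le_antisymm ?_ ?_
    · obtain ⟨A, hA, _, hc⟩ := RKB_att k L hk1
      have := card_le_card hA
      rw [card_range] at this
      omega
    · have hfree : APFree k (range L) := by
        intro a q hq
        refine ⟨k - 1, by omega, fun h => ?_⟩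
        have h1 := mem_range.mp h
        have h2 : (k - 1) * 1 ≤ (k - 1) * q := Nat.mul_le_mul_left _ hq
        omega
      have := RKB_le k L (range L) (Subset.refl _) hfree
      rwa [card_range] at this
  refine ⟨fun L => RKB_att k L hk1, fun L A hA hf => RKB_le k L A hA hf, hmono, hsmall, ?_⟩
  have h1 := hsmall (k - 1) (by omega)
  have h2 := (hmono (k - 1)).1
  rw [Nat.sub_add_cancel hk1] at h2
  obtain ⟨A, hA, hf, hc⟩ := RKB_att k k hk1
  have h3 := card_le_card hA
  rw [card_range] at h3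
  have h4 : A.card ≠ k := by
    intro h
    have h5 : A = range k := eq_of_subset_of_card_le hA (by rw [card_range, h])
    obtain ⟨j, hj, hn⟩ := hf 0 1 le_rfl
    apply hn
    rw [h5]
    exact mem_range.mpr (by omega)
  omega

end Pool.Agent.helper18.HG
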